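import Mathlib
import Pool.Agent.Lib.MP_1155ce_an.Spec

/-! The exact support of each eigenspace of the lift of a Jacobi matrix on the complete bipartite
graph with `r` red and `g` green vertices, `r ≥ g ≥ 2`, to its universal cover: some eigenvector for
`lam` is nonzero at the vertex `x` if and only if `x` is a red vertex with potential `lam` and more
than `g` red base vertices have the potential `lam`. In particular, every eigenvector vanishes at
every green vertex. The universal cover is any tree with a covering map onto the base graph. -/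

namespace Pool.Agent.Results.MP_1155ce_an.EigenSupport

open SimpleGraph Pool.Agent.Lib.MP1155ce

/-- `u` is square summable and `H u = lam u`, where `H` is the lift to the tree `T` (with covering
map `Xi`) of the Jacobi matrix with edge weights `a` and potential `b`. -/
def Eigfn {V : Type*} {r g : ℕ} (T : SimpleGraph V) [T.LocallyFinite] (Xi : V → Fin r ⊕ Fin g)
    (a : Sym2 (Fin r ⊕ Fin g) → ℝ) (b : Fin r ⊕ Fin g → ℝ) (lam : ℝ) (u : V → ℂ) : Prop :=
  Summable (fun x => ‖u x‖ ^ 2) ∧
    ∀ x, (b (Xi x) : ℂ) * u x + ∑ y ∈ T.neighborFinset x, (a s(Xi x, Xi y) : ℂ) * u y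
      = (lam : ℂ) * u x

lemma sqs_re {V : Type*} {u : V → ℂ} (h2 : Summable (fun x => ‖u x‖ ^ 2)) :
    SqS (fun x => (u x).re) ∧ SqS (fun x => (u x).im) := by
  constructor
  · unfold SqS
    apply Summable.of_nonneg_of_le (fun x => sq_nonneg _) _ h2
    intro x
    rw [← sq_abs]
    exact pow_le_pow_left₀ (abs_nonneg _) (Complex.abs_re_le_norm _) 2
  · unfold SqS
    apply Summable.of_nonneg_of_le (fun x => sq_nonneg _) _ h2
    intro x
    rw [← sq_abs]
    exact pow_le_pow_left₀ (abs_nonneg _) (Complex.abs_im_le_norm _) 2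

open Classical in
theorem result (r g : ℕ) (hg : 2 ≤ g) (hrg : g ≤ r)
    {V : Type*} (T : SimpleGraph V) [T.LocallyFinite] (hT : T.IsTree)
    (Xi : V → Fin r ⊕ Fin g)
    (hXi : ∀ x, Set.BijOn Xi (T.neighborSet x)
      ((completeBipartiteGraph (Fin r) (Fin g)).neighborSet (Xi x)))
    (a : Sym2 (Fin r ⊕ Fin g) → ℝ)
    (ha : ∀ e ∈ (completeBipartiteGraph (Fin r) (Fin g)).edgeSet, 0 < a e)
    (b : Fin r ⊕ Fin g → ℝ) (lam : ℝ) (x : V) :
    (∃ u : V → ℂ, Summable (fun y => ‖u y‖ ^ 2) ∧
        (∀ y, (b (Xi y) : ℂ) * u y + ∑ z ∈ T.neighborFinset y, (a s(Xi y, Xi z) : ℂ) * u z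
          = (lam : ℂ) * u y) ∧
        u x ≠ 0) ↔
      (∃ i : Fin r, Xi x = Sum.inl i ∧ b (Sum.inl i) = lam) ∧
        g < (Finset.univ.filter (fun i : Fin r => b (Sum.inl i) = lam)).card := by
  obtain ⟨N, hN⟩ : ∃ N, N = (Finset.univ.filter (fun i : Fin r => b (Sum.inl i) = lam)).card :=
    ⟨_, rfl⟩
  have hD : Dat T Xi a := ⟨hT, hXi, ha⟩
  obtain ⟨k, hk⟩ := exists_kernel T (fun x => b (Xi x)) (fun x y => a s(Xi x, Xi y)) lam
  have hk : IsKer T (fun x => b (Xi x)) (fun x y => a s(Xi x, Xi y)) lam k := hk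
  obtain ⟨x0⟩ := hT.connected.nonempty
  obtain ⟨s0, hs0⟩ := Classical.axiom_of_choice
    (exists_section (by omega) (by omega) hXi x0)
  -- real and imaginary parts
  have hre : ∀ u, Eigfn T Xi a b lam u →
      Eig T (fun x => b (Xi x)) (fun x y => a s(Xi x, Xi y)) lam (fun x => (u x).re) := by
    intro u hu
    refine ⟨(sqs_re hu.1).1, fun z => ?_⟩
    have h1 := congrArg Complex.re (hu.2 z)
    simp only [Complex.add_re, Complex.re_ofReal_mul, Complex.re_sum] at h1
    exact h1
  have him : ∀ u, Eigfn T Xi a b lam u →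
      Eig T (fun x => b (Xi x)) (fun x y => a s(Xi x, Xi y)) lam (fun x => (u x).im) := by
    intro u hu
    refine ⟨(sqs_re hu.1).2, fun z => ?_⟩
    have h1 := congrArg Complex.im (hu.2 z)
    simp only [Complex.add_im, Complex.im_ofReal_mul, Complex.im_sum] at h1
    exact h1
  have hof : ∀ f : V → ℝ, Eig T (fun x => b (Xi x)) (fun x y => a s(Xi x, Xi y)) lam f →
      Eigfn T Xi a b lam (fun x => (f x : ℂ)) := by
    intro f hf
    constructor
    · have h1 : Summable (fun x => f x ^ 2) := hf.1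
      refine h1.congr fun x => ?_
      rw [Complex.norm_real, Real.norm_eq_abs, sq_abs]
    · intro x
      have h1 : b (Xi x) * f x + ∑ y ∈ T.neighborFinset x, a s(Xi x, Xi y) * f y = lam * f x :=
        hf.2 x
      have h2 := congrArg (fun t : ℝ => (t : ℂ)) h1
      push_cast at h2
      exact h2
  have hpos : ∀ x, (∃ u, Eigfn T Xi a b lam u ∧ u x ≠ 0) ↔ 0 < k x x := by
    intro x
    constructor
    · rintro ⟨u, hu, hux⟩
      by_contra h
      have h0 : k x x = 0 := le_antisymm (not_lt.mp h) (hk.self_nonneg _)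
      exact hux (Complex.ext (hk.eq_zero h0 (hre u hu)) (hk.eq_zero h0 (him u hu)))
    · intro h
      refine ⟨_, hof _ (hk x).1, ?_⟩
      simpa using h.ne'
  have hgreen : ∀ x, (Xi x).isRight = true → k x x = 0 := by
    intro x hx
    rcases h : Xi x with i | j
    · rw [h] at hx; simp at hx
    · rw [spec_inv hD hk (show Xi x = Xi (s0 (Sum.inr j)) by rw [h, hs0])]
      exact spec_green hD hk hg hrg hs0 j
  -- the set of base vertices in the support
  have hsub : ∀ s : Fin r ⊕ Fin g → V, (∀ v, Xi (s v) = v) →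
      Finset.univ.filter (fun i => 0 < k (s (Sum.inl i)) (s (Sum.inl i))) ⊆
      Finset.univ.filter (fun i : Fin r => b (Sum.inl i) = lam) := by
    intro s hs i hi
    simp only [Finset.mem_filter, Finset.mem_univ, true_and] at hi ⊢
    by_contra h
    rw [spec_red hD hk hg hrg (hs (Sum.inl i)) h] at hi
    exact lt_irrefl _ hi
  have hlow : ∀ s : Fin r ⊕ Fin g → V, (∀ v, Xi (s v) = v) →
      (N : ℝ) - g ≤ ∑ i, k (s (Sum.inl i)) (s (Sum.inl i)) := by
    intro s hs
    rw [hN]
    exact spec_lower hD hk hs _ rfl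
  have hcase : ∀ s : Fin r ⊕ Fin g → V, (∀ v, Xi (s v) = v) →
      (∃ i, 0 < k (s (Sum.inl i)) (s (Sum.inl i))) →
      g < N ∧ ∑ i, k (s (Sum.inl i)) (s (Sum.inl i)) = (N : ℝ) - g ∧
      Finset.univ.filter (fun i => 0 < k (s (Sum.inl i)) (s (Sum.inl i))) =
        Finset.univ.filter (fun i : Fin r => b (Sum.inl i) = lam) := by
    intro s hs hex
    have h1 := spec_sum hD hk hg hrg hs hex
    have h2 := Finset.card_le_card (hsub s hs)
    rw [← hN] at h2
    have h3 := hlow s hs
    have h4 : (N : ℝ) ≤ (Finset.univ.filter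
        (fun i => 0 < k (s (Sum.inl i)) (s (Sum.inl i)))).card := by linarith
    have h5 : N ≤ (Finset.univ.filter
        (fun i => 0 < k (s (Sum.inl i)) (s (Sum.inl i)))).card := by exact_mod_cast h4
    have h6 : (Finset.univ.filter
        (fun i => 0 < k (s (Sum.inl i)) (s (Sum.inl i)))).card = N := le_antisymm h2 h5
    rw [h6] at h1
    refine ⟨?_, h1, ?_⟩
    · obtain ⟨i, hi⟩ := hex
      have h7 : 0 < ∑ i, k (s (Sum.inl i)) (s (Sum.inl i)) :=
        Finset.sum_pos' (fun i _ => hk.self_nonneg _) ⟨i, Finset.mem_univ _, hi⟩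
      rw [h1] at h7
      have h8 : (g : ℝ) < N := by linarith
      exact_mod_cast h8
    · exact Finset.eq_of_subset_of_card_le (hsub s hs) (by rw [← hN, h6])
  have hcase2 : ∀ s : Fin r ⊕ Fin g → V, (∀ v, Xi (s v) = v) → g < N →
      ∃ i, 0 < k (s (Sum.inl i)) (s (Sum.inl i)) := by
    intro s hs h
    by_contra hne
    push Not at hne
    have h1 := hlow s hs
    have h2 : ∑ i, k (s (Sum.inl i)) (s (Sum.inl i)) ≤ 0 :=
      Finset.sum_nonpos fun i _ => hne i
    have h3 : (g : ℝ) < N := by exact_mod_cast h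
    linarith
  have hsupp : ∀ x, 0 < k x x ↔ (g < N ∧ ∃ i, Xi x = Sum.inl i ∧ b (Sum.inl i) = lam) := by
    intro x
    constructor
    · intro hx
      rcases h : Xi x with i | j
      · have h1 : 0 < k (s0 (Sum.inl i)) (s0 (Sum.inl i)) := by
          rw [← spec_inv hD hk (show Xi x = Xi (s0 (Sum.inl i)) by rw [h, hs0])]
          exact hx
        refine ⟨(hcase s0 hs0 ⟨i, h1⟩).1, i, rfl, ?_⟩
        by_contra hne
        rw [spec_red hD hk hg hrg h hne] at hx
        exact lt_irrefl _ hx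
      · rw [hgreen x (by rw [h]; rfl)] at hx
        exact absurd hx (lt_irrefl _)
    · rintro ⟨h, i, hi, hbi⟩
      have h1 := (hcase s0 hs0 (hcase2 s0 hs0 h)).2.2
      have h2 : i ∈ Finset.univ.filter (fun i => 0 < k (s0 (Sum.inl i)) (s0 (Sum.inl i))) := by
        rw [h1]; simpa using hbi
      rw [spec_inv hD hk (show Xi x = Xi (s0 (Sum.inl i)) by rw [hi, hs0])]
      simpa using h2
  rw [← hN, and_comm, ← hsupp x, ← hpos x]
  constructor
  · rintro ⟨u, h1, h2, h3⟩
    exact ⟨u, ⟨h1, h2⟩, h3⟩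
  · rintro ⟨u, ⟨h1, h2⟩, h3⟩
    exact ⟨u, h1, h2, h3⟩

end Pool.Agent.Results.MP_1155ce_an.EigenSupport
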